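import Pool.Agent.H84.S2.TgB
import Pool.Agent.H74.S2.EF2
import Pool.Agent.H70.SF.DSO

/-!
# The fundamental inequality for sections of degree 0 (row B_EFB of the board `s2l_modules`)
-/

set_option autoImplicit false

namespace Pool.Agent.H58.S2

open MvPolynomial SC
open Pool.Agent.H27.LV (ge deg poleOrder canDeg)
open Pool.Agent.H84.SM (cr dt dp)
open Pool.Agent.H84.SL (pd)
open Pool.Agent.H92.SF (Q2)
open Pool.Agent.H3.SF (Itg Bb BB Hm eu grd hes Sfc Crd Cnn Crf Prm nv Vl VQ evc FE E)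
open Pool.Agent.H84.SF
open Pool.Agent.H3.S2
open Pool.Agent.H84.S2

open Pool.Agent.H27.LV (ordD pfm pfi dor rat) in
theorem pf_EFB (hEVD : T_EVD) (hEVO : T_EVO) (hVLI : Pool.Agent.H3.SF.T_VLI)
    (_hSFW : Pool.Agent.H3.S2.T_SFW) : T_EFB := by
  classical
  intro k F σ _ _ _ _ _ _ _ X u dd δ j0 c0 J hS hX m GP hm hN K _ _ _ htr D hD φ x g Sp hf
    n t V VK hV hVd hVK hW
  -- the curve
  have hG : Crw u dd m (aeval X GP) := by
    refine ⟨hN.ne, ?_, ?_⟩
    · have h1 : aeval X GP ∈ Algebra.adjoin k (Set.range X) := by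
        rw [Algebra.adjoin_range_eq_range_aeval]
        exact ⟨GP, rfl⟩
      have h2 : Algebra.adjoin k (Set.range X) ≤ Bb k u := by
        refine Algebra.adjoin_le ?_
        rintro _ ⟨i, rfl⟩
        exact hX.Xint i
      exact h2 h1
    · refine Pool.Agent.H62.HIL.hm_aeval (fun i => ?_) hN.hom
      unfold Hm
      rw [hX.Xeu]
      simp
  have hvG : Vl u φ (aeval X GP) g := by
    refine ⟨1, ⟨aeval X GP, hG.itg⟩, ?_, ?_, ?_⟩
    · rw [map_one]; exact one_ne_zero
    · rw [OneMemClass.coe_one, one_mul]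
    · rw [map_one, one_mul]
      exact (hf.gx ⟨aeval X GP, hG.itg⟩ rfl).symm
  have hg0 : ∀ v : DV k K, 0 ≤ nv v x m g := fun v =>
    hVLI k F K u dd δ j0 c0 J hS φ x hf.cx hf.one v m _ g hG.itg hG.hom hvG hf.ne
  obtain ⟨W, hWd⟩ : ∃ W, W = evc D x VK := ⟨_, rfl⟩
  rw [← hWd] at hW
  -- the local estimate
  have hloc : ∀ v : DV k K, 0 ≤ v.ord W - t * (poleOrder v x : ℤ) +
      (2 * n + 1) * nv v x j0 (aeval x J) +
      (n : ℤ) * ((if v ∈ Sp then 1 else 0) - ordD v D) := by
    intro v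
    obtain ⟨-, ⟨hd1, hd2⟩, -⟩ := dor k K htr D hD v
    have key : ∀ e : ℤ, ge v (t * poleOrder v x - (2 * n + 1) * nv v x j0 (aeval x J) + n * e) W →
        ordD v D ≤ (if v ∈ Sp then 1 else 0) + e → 0 ≤ v.ord W - t * (poleOrder v x : ℤ) +
      (2 * n + 1) * nv v x j0 (aeval x J) +
      (n : ℤ) * ((if v ∈ Sp then 1 else 0) - ordD v D) := by
      intro e he hle
      have h1 := he.resolve_left hW
      have h2 : (n : ℤ) * ordD v D ≤ n * ((if v ∈ Sp then 1 else 0) + e) :=
        mul_le_mul_of_nonneg_left hle (Int.natCast_nonneg n)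
      rw [mul_sub]
      rw [mul_add] at h2
      linarith
    by_cases hz : nv v x m g = 0
    · refine key (ordD v D) ?_ ?_
      · rw [hWd]
        exact hEVO k F K htr u dd δ j0 c0 J hS m _ hm hG φ x g hf.cx hf.one hf.Jx hf.gx hf.ne
          n t V VK hV hVd hVK D v _ hd1 hz
      · split_ifs <;> omega
    · have hSp : v ∈ Sp := by
        by_contra hv
        have h1 := hf.off v hv
        have h2 := hg0 v
        have h3 : nv v x ((0 : ℕ) : ℤ) (aeval x (1 : MvPolynomial (Fin 3) k)) = 0 := by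
          unfold nv
          rw [map_one, v.ord_one]
          simp
        have h4 : nv v x m g ≤ 0 := h1.trans_eq h3
        exact hz (le_antisymm h4 h2)
      refine key (ordD v D - 1) ?_ ?_
      · rw [hWd]
        refine hEVD k F σ K htr X u dd δ j0 c0 J hS hX m GP hm hN φ x g hf.cx hf.one hf.Jx hf.gx
          hf.ne n t V VK hV hVd hVK D v _ (fun z hz0 => ?_) hz
        exact (hd2 z hz0).mono (by omega)
      · rw [if_pos hSp]
        omega
  -- summation over all places
  obtain ⟨hfs, hfsum⟩ := pfm k K htr W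
  obtain ⟨hjs, hjsum⟩ := pfm k K htr (aeval x J)
  have hps := pfi k K htr (Fin 3) x
  have hds := Pool.Agent.H58.LV.dfi dor pfm rat k K htr D hD
  let T : Finset (DV k K) := hfs.toFinset ∪ hps.toFinset ∪ hds.toFinset ∪ Sp ∪ hjs.toFinset
  have hT1 : hfs.toFinset ⊆ T := fun v hv => by simp only [T, Finset.mem_union]; tauto
  have hT2 : hps.toFinset ⊆ T := fun v hv => by simp only [T, Finset.mem_union]; tauto
  have hT3 : hds.toFinset ⊆ T := fun v hv => by simp only [T, Finset.mem_union]; tauto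
  have hT4 : Sp ⊆ T := fun v hv => by simp only [T, Finset.mem_union]; tauto
  have hT5 : hjs.toFinset ⊆ T := fun v hv => by simp only [T, Finset.mem_union]; tauto
  have e1 : ∑ᶠ v : DV k K, v.ord W = ∑ v ∈ T, v.ord W := by
    refine finsum_eq_sum_of_support_subset _ fun v hv => ?_
    exact hT1 (hfs.mem_toFinset.2 hv)
  have e1' : ∑ᶠ v : DV k K, v.ord (aeval x J) = ∑ v ∈ T, v.ord (aeval x J) := by
    refine finsum_eq_sum_of_support_subset _ fun v hv => ?_
    exact hT5 (hjs.mem_toFinset.2 hv)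
  have e2 : (deg k x : ℤ) = ∑ v ∈ T, (poleOrder v x : ℤ) := by
    have h1 : deg k x = ∑ v ∈ T, poleOrder v x := by
      unfold deg
      refine finsum_eq_sum_of_support_subset _ fun v hv => ?_
      exact hT2 (hps.mem_toFinset.2 hv)
    rw [h1]
    push_cast
    rfl
  have e3 : canDeg D = - ∑ v ∈ T, ordD v D := by
    unfold canDeg
    congr 1
    refine finsum_eq_sum_of_support_subset _ fun v hv => ?_
    exact hT3 (hds.mem_toFinset.2 hv)
  have e4 : (Sp.card : ℤ) = ∑ v ∈ T, (if v ∈ Sp then (1 : ℤ) else 0) := by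
    rw [Finset.sum_ite_mem, Finset.inter_eq_right.2 hT4]
    simp
  have e8 : ∑ v ∈ T, nv v x j0 (aeval x J) = j0 * deg k x := by
    unfold nv
    rw [Finset.sum_add_distrib, ← e1', hjsum, ← Finset.mul_sum, ← e2, zero_add]
  have e5 := Finset.sum_nonneg fun v (_ : v ∈ T) => hloc v
  rw [Finset.sum_add_distrib, Finset.sum_add_distrib, Finset.sum_sub_distrib, ← Finset.mul_sum,
    ← Finset.mul_sum, ← Finset.mul_sum, Finset.sum_sub_distrib, ← e1, hfsum, ← e2, ← e4,
    e8] at e5
  have e6 : ∑ v ∈ T, ordD v D = - canDeg D := by rw [e3, neg_neg]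
  rw [e6] at e5
  linarith

end Pool.Agent.H58.S2
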