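import Pool.Agent.H84.S2.TgB
import Pool.Agent.H21.SF.EVF

/-!
# The local inequality outside of the curve (row B_EVO of the board `s2l_modules`)
-/

set_option autoImplicit false

namespace Pool.Agent.H58.S2

open MvPolynomial SC
open Pool.Agent.H27.LV (ge deg poleOrder canDeg)
open Pool.Agent.H84.SM (cr dt dp)
open Pool.Agent.H84.SL (pd)
open Pool.Agent.H92.SF (Q2)
open Pool.Agent.H3.SF (Itg Bb BB Hm eu grd hes Sfc Crd Cnn Crf Prm nv Vl VQ evc FE E)
open Pool.Agent.H84.SF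
open Pool.Agent.H3.S2
open Pool.Agent.H84.S2

namespace EVO

open Pool.Agent.H92.SF (C3 ev2 ev3 cc rv zv muc gxr pc wc Psi WH)

variable {k K : Type} [Field k] [Field K] [Algebra k K] (v : DV k K)

/-- values of polynomials with regular coefficients -/
lemma reg_pow {x : K} (h : ge v 0 x) (n : ℕ) : ge v 0 (x ^ n) := by
  induction n with
  | zero => rw [pow_zero]; exact Pool.Agent.H27.LV.ge_one v
  | succ n ih =>
    rw [pow_succ]
    have := ih.mul h
    rwa [add_zero] at this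

lemma reg_prod {ι : Type} (s : Finset ι) (f : ι → K) (h : ∀ i ∈ s, ge v 0 (f i)) :
    ge v 0 (∏ i ∈ s, f i) := by
  classical
  induction s using Finset.induction_on with
  | empty => exact Pool.Agent.H27.LV.ge_one v
  | insert a s ha ih =>
    rw [Finset.prod_insert ha]
    have := (h a (Finset.mem_insert_self _ _)).mul
      (ih fun i hi => h i (Finset.mem_insert_of_mem hi))
    rwa [add_zero] at this

lemma reg_eval {σ : Type} [Fintype σ] (P : MvPolynomial σ K) (ρ : σ → K)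
    (hP : ∀ a, ge v 0 (P.coeff a)) (hρ : ∀ i, ge v 0 (ρ i)) :
    ge v 0 (eval₂ (RingHom.id K) ρ P) := by
  rw [eval₂_eq']
  refine Pool.Agent.H27.LV.ge_sum v _ _ _ fun a _ => ?_
  have h1 := (hP a).mul (reg_prod v Finset.univ (fun i => ρ i ^ a i)
    fun i _ => reg_pow v (hρ i) (a i))
  rw [add_zero] at h1
  exact h1

/-- the value of the chart at `ρ = - w` where `x · w = 0` -/
lemma psi_val (m : ℕ) (x g : Fin 3 → K) (G s : K) (H : Fin 3 → Fin 3 → K) (w : Fin 3 → K)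
    (hw : dp x w = 0) (Q : MvPolynomial (Fin 2) K) :
    eval₂ (RingHom.id K) (fun i => - w i) ((Psi m x g G H s (Polynomial.C Q)).coeff 0) =
      eval ![s ^ 2 * (m * G) * w 1, s ^ 2 * (m * G) * w 2] Q := by
  have h1 : ∀ W : C3 K, eval₂ (RingHom.id K) (fun i => - w i) (W.coeff 0) =
      ev3 (RingHom.id K) (fun i => - w i) 0 W := by
    intro W
    unfold ev3
    rw [Polynomial.coe_eval₂RingHom, Polynomial.eval₂_at_zero]
    rfl
  have hcc : ∀ a : K, ev3 (RingHom.id K) (fun i => - w i) 0 (cc a) = a := by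
    intro a
    unfold ev3 cc
    rw [Polynomial.coe_eval₂RingHom, RingHom.comp_apply, Polynomial.eval₂_C, coe_eval₂Hom,
      eval₂_C, RingHom.id_apply]
  have hrv : ∀ i, ev3 (RingHom.id K) (fun i => - w i) 0 (rv i) = - w i := by
    intro i
    unfold ev3 rv
    rw [Polynomial.coe_eval₂RingHom, Polynomial.eval₂_C, coe_eval₂Hom, eval₂_X]
  have hpc : ∀ i, ev3 (RingHom.id K) (fun i => - w i) 0 (pc m x g G s i) =
      s ^ 2 * (m * G) * w i := by
    intro i
    have hmu : ev3 (RingHom.id K) (fun i => - w i) 0 (muc x) = 0 := by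
      unfold muc
      unfold dp at hw ⊢
      rw [map_sum]
      have : ∀ i ∈ (Finset.univ : Finset (Fin 3)),
          ev3 (RingHom.id K) (fun i => - w i) 0 (cc (x i) * rv i) = - (x i * w i) := by
        intro i _
        rw [map_mul, hcc, hrv]; ring
      rw [Finset.sum_congr rfl this, Finset.sum_neg_distrib, hw, neg_zero]
    unfold pc
    rw [map_mul, map_pow, map_sub, map_mul, map_mul, hcc, hcc, hcc, hrv, hmu]
    ring
  rw [h1]
  unfold Psi ev2
  rw [Polynomial.coe_eval₂RingHom, Polynomial.eval₂_C, coe_eval₂Hom, hom_eval₂]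
  have h2 : (ev3 (RingHom.id K) (fun i => - w i) 0).comp cc = RingHom.id K :=
    RingHom.ext fun a => hcc a
  rw [h2]
  have h3 : (fun i => (ev3 (RingHom.id K) (fun i => - w i) 0)
      ((![pc m x g G s 1, pc m x g G s 2] : Fin 2 → C3 K) i)) =
      ![s ^ 2 * (m * G) * w 1, s ^ 2 * (m * G) * w 2] := by
    funext i
    fin_cases i
    · exact hpc 1
    · exact hpc 2
  rw [h3]
  rfl

/-- homogeneous polynomials: scaling of the variables -/
lemma hom_scale (n : ℕ) (Q : MvPolynomial (Fin 2) K)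
    (hQ : ∀ a : Fin 2 →₀ ℕ, a.degree ≠ n → Q.coeff a = 0) (r a b : K) :
    eval ![r * a, r * b] Q = r ^ n * eval ![a, b] Q := by
  rw [eval_eq', eval_eq', Finset.mul_sum]
  refine Finset.sum_congr rfl fun d hd => ?_
  have h1 : d.degree = n := by
    by_contra h
    exact mem_support_iff.1 hd (hQ d h)
  rw [Fin.prod_univ_two, Fin.prod_univ_two]
  have h2 : d 0 + d 1 = n := by
    rw [← h1, Finsupp.degree_eq_sum, Fin.sum_univ_two]
  rw [← h2]
  simp only [Matrix.cons_val_zero, Matrix.cons_val_one]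
  ring

end EVO

open Pool.Agent.H21.SF in
open EVO in
theorem pf_EVO (hVLA : Pool.Agent.H3.SF.T_VLA) (_hVLQ : Pool.Agent.H3.SF.T_VLQ)
    (hVLD : Pool.Agent.H3.SF.T_VLD) (hVLI : Pool.Agent.H3.SF.T_VLI)
    (_hVPS : Pool.Agent.H3.SF.T_VPS) (hSF1 : Pool.Agent.H3.SF.T_SF1)
    (_hSFW : Pool.Agent.H3.S2.T_SFW) : T_EVO := by
  classical
  intro k F K _ _ _ _ _ _ _ _ _htr u dd δ j0 c0 J hs m G hm hc φ x g hcx hone hJ0 hgx hg0 n t
    V VK hVE hV0 hVK D v e hD hnv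
  have hTV : Pool.Agent.H3.SF.Tw u dd n (-(t : ℤ)) V := hVE.1
  -- values
  obtain ⟨hS1, hS2, hS3, hS4, -, hS6, -⟩ := hSF1 k F u dd δ j0 c0 J hs
  obtain ⟨hA1, hA2, -, hA4, hA5⟩ := hVLA k F K u φ
  have hvx : ∀ i, Vl u φ (u i) (x i) := by
    intro i
    have h1 := hA4 ⟨u i, hS2 i⟩
    rwa [hcx i ⟨u i, hS2 i⟩ rfl] at h1
  have hvG : Vl u φ G g := by
    have h1 := hA4 ⟨G, hc.itg⟩
    rwa [hgx ⟨G, hc.itg⟩ rfl] at h1
  obtain ⟨hvJ, hvD⟩ := hVLD k F K u dd δ j0 c0 J hs φ x hcx hJ0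
  obtain ⟨gK, hgK, -⟩ := hvD G g hvG
  choose HK' hHK' hHD' using fun l => hvD (dd l G) (gK l) (hgK l)
  obtain ⟨HK, hHK0⟩ : ∃ HK : Fin 3 → Fin 3 → K, ∀ i j, HK i j = HK' j i :=
    ⟨fun i j => HK' j i, fun _ _ => rfl⟩
  have hHK : ∀ i j, Vl u φ (dd i (dd j G)) (HK i j) := by
    intro i j
    rw [hHK0]
    exact hHK' j i
  obtain ⟨i0, hi0⟩ := hone
  have hcz : CharZero K := charZero_of_injective_algebraMap (algebraMap k K).injective
  have hmK : (m : K) ≠ 0 := by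
    have : m ≠ 0 := by omega
    exact_mod_cast this
  -- homogeneity
  have hmx : ∀ i, Hm k (eu u dd) 1 (u i) := by
    intro i
    unfold Hm
    rw [hS1.eul i, Int.cast_one, one_mul]
  have hmg : ∀ l, Hm k (eu u dd) ((m : ℤ) - 1) (dd l G) := fun l => hS6 _ _ l hc.hom
  have hmH : ∀ i j, Hm k (eu u dd) ((m : ℤ) - 2) (dd i (dd j G)) := by
    intro i j
    have h1 := hS6 _ _ i (hmg j)
    rwa [sub_sub, one_add_one_eq_two] at h1
  have hmJ : Hm k (eu u dd) (j0 : ℤ) (aeval u J) := by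
    unfold Hm eu
    have e1 : (∑ l, u l • dd l) (aeval u J) = ∑ l, u l * dd l (aeval u J) := by
      rw [Fin.sum_univ_three, Fin.sum_univ_three]
      rfl
    rw [e1]
    have e2 := congrArg (aeval u) hs.Jh.sum_X_mul_pderiv
    rw [map_sum] at e2
    have e3 : ∀ l, u l * dd l (aeval u J) = aeval u (X l * pderiv l J) := by
      intro l
      rw [hS4, map_mul, aeval_X]
    rw [Finset.sum_congr rfl fun l _ => e3 l, e2, map_nsmul, nsmul_eq_mul]
    push_cast
    rfl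
  -- scaling
  have hpl : ∀ i, -(poleOrder v x : ℤ) ≤ v.ord (x i) := by
    intro i
    have h1 : (-(v.ord (x i))).toNat ≤ poleOrder v x :=
      Finset.le_sup (f := fun i => (-(v.ord (x i))).toNat) (Finset.mem_univ i)
    omega
  obtain ⟨j, hj, hjp⟩ : ∃ j, x j ≠ 0 ∧ v.ord (x j) = -(poleOrder v x : ℤ) := by
    by_cases hp : poleOrder v x = 0
    · refine ⟨i0, by rw [hi0]; exact one_ne_zero, ?_⟩
      rw [hi0, v.ord_one, hp]
      simp
    · obtain ⟨i, -, hi⟩ := Finset.exists_mem_eq_sup (Finset.univ : Finset (Fin 3))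
        Finset.univ_nonempty (fun i => (-(v.ord (x i))).toNat)
      have hi' : poleOrder v x = (-(v.ord (x i))).toNat := hi
      refine ⟨i, ?_, by omega⟩
      intro h0
      rw [h0, v.ord_zero] at hi'
      exact hp (by rw [hi']; rfl)
  obtain ⟨c, hcx'⟩ : ∃ c : K, c = (x j)⁻¹ := ⟨_, rfl⟩
  have hc0 : c ≠ 0 := by rw [hcx']; exact inv_ne_zero hj
  have hco : v.ord c = poleOrder v x := by
    have h1 := v.ord_mul' hj hc0
    rw [hcx', mul_inv_cancel₀ hj, v.ord_one, hjp] at h1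
    rw [hcx']
    omega
  have hxo : ∀ i, 0 ≤ v.ord (c * x i) := by
    intro i
    by_cases h0 : x i = 0
    · rw [h0, mul_zero, v.ord_zero]
    · rw [v.ord_mul' hc0 h0, hco]
      have := hpl i
      omega
  have hxt : ∀ i, ge v 0 (c * x i) := fun i => Or.inr (hxo i)
  have hRl : Rl (Rv u dd φ c) := rV hVLA hc0
  have hRx : ∀ i, Rv u dd φ c 1 (u i) (c * x i) := by
    intro i
    have h1 := rv_of hc0 (hmx i) (hvx i)
    rwa [zpow_one] at h1
  have hRg : ∀ l, Rv u dd φ c ((m : ℤ) - 1) (grd dd G l) (c ^ ((m : ℤ) - 1) * gK l) :=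
    fun l => rv_of hc0 (hmg l) (hgK l)
  have hRG : Rv u dd φ c (m : ℤ) G (c ^ m * g) := by
    have h1 := rv_of hc0 hc.hom hvG
    rwa [zpow_natCast] at h1
  have hRH : ∀ i l, Rv u dd φ c ((m : ℤ) - 2) (hes dd G i l) (c ^ ((m : ℤ) - 2) * HK i l) :=
    fun i l => rv_of hc0 (hmH i l) (hHK i l)
  have hRs : Rv u dd φ c (j0 : ℤ) (aeval u J) (c ^ j0 * aeval x J) := by
    have h1 := rv_of hc0 hmJ hvJ
    rwa [zpow_natCast] at h1
  have hreg : ∀ (d : ℤ) (a : F) (b : K), Rv u dd φ c d a b → Itg k u a → ge v 0 b :=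
    fun d a b h1 h2 => rv_reg hVLI hs hcx ⟨i0, hi0⟩ v hc0 hco h1 h2
  have hsr : ge v 0 (c ^ j0 * aeval x J) := hreg _ _ _ hRs (hS3 J)
  have hs0 : c ^ j0 * aeval x J ≠ 0 := mul_ne_zero (pow_ne_zero _ hc0) hJ0
  have hG0 : c ^ m * g ≠ 0 := mul_ne_zero (pow_ne_zero _ hc0) hg0
  -- the section
  have hVj : ∀ i : ℕ, i ≠ 0 → V.coeff i = 0 := fun i hi =>
    Polynomial.coeff_eq_zero_of_natDegree_lt (by omega)
  have hQ0 : ∀ a : Fin 2 →₀ ℕ, a.degree ≠ n → (VK.coeff 0).coeff a = 0 := by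
    intro a ha
    exact vq_zero hVLA hTV hVK (j := 0) (by omega)
  have hVKj : ∀ i : ℕ, i ≠ 0 → VK.coeff i = 0 := by
    intro i hi
    ext a
    have h6 := hVK i a
    rw [hVj i hi, coeff_zero] at h6
    have h7 := hA5 0
    rw [map_zero, map_zero] at h7
    rw [coeff_zero]
    exact hA1 _ _ _ h6 h7
  have hVKC : VK = Polynomial.C (VK.coeff 0) := by
    refine Polynomial.ext fun i => ?_
    rw [Polynomial.coeff_C]
    by_cases hi : i = 0
    · rw [if_pos hi, hi]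
    · rw [if_neg hi, hVKj i hi]
  obtain ⟨Q', hQ'⟩ : ∃ Q', Q' = C (c ^ (-(t : ℤ) - 2 * n)) * VK.coeff 0 := ⟨_, rfl⟩
  have hQ'c : ∀ a, Q'.coeff a = c ^ (-(t : ℤ) - 2 * n) * (VK.coeff 0).coeff a := fun a => by
    rw [hQ', coeff_C_mul]
  have hQ'0 : ∀ a : Fin 2 →₀ ℕ, a.degree ≠ n → Q'.coeff a = 0 := fun a ha => by
    rw [hQ'c, hQ0 a ha, mul_zero]
  have hpsi := psi_rel hRl m j0 u (grd dd G) (fun i => c * x i)
    (fun i => c ^ ((m : ℤ) - 1) * gK i) G (c ^ m * g) (hes dd G)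
    (fun i l => c ^ ((m : ℤ) - 2) * HK i l) (aeval u J) (c ^ j0 * aeval x J)
    hRx hRg hRG hRH hRs n (-(t : ℤ)) V (Polynomial.C Q')
    (fun i a _ => by
      rw [Polynomial.coeff_C]
      by_cases hi : i = 0
      · rw [if_pos hi, hi, hQ'c]
        have h1 := rv_of hc0 (hTV.2 0 a) (hVK 0 a)
        rw [Nat.cast_zero, mul_zero, add_zero] at h1 ⊢
        exact h1
      · rw [if_neg hi, hVj i hi, coeff_zero, coeff_zero]
        exact hRl.zero _)
    (fun i a ha => by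
      refine ⟨wh_zero hTV.1 ha, ?_⟩
      rw [Polynomial.coeff_C]
      by_cases hi : i = 0
      · rw [if_pos hi]
        exact hQ'0 a (by omega)
      · rw [if_neg hi, coeff_zero])
  -- the jet
  obtain ⟨μ, hμ⟩ : ∃ μ : K, μ = v.unif ^ (-e) := ⟨_, rfl⟩
  have hμ0 : μ ≠ 0 := by rw [hμ]; exact v.unif_zpow_ne_zero _
  have hμo : v.ord μ = -e := by rw [hμ]; exact v.ord_unif_zpow _
  have hμg : ge v (-e) μ := Or.inr hμo.ge
  have hDx : ∀ i, ge v 0 (μ * D (c * x i)) := fun i => by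
    have h1 := hμg.mul (hD _ (hxo i))
    exact h1.mono (by omega)
  obtain ⟨w, hw⟩ : ∃ w : Fin 3 → K, ∀ i, w i = cr x (fun i => D (x i)) i := ⟨_, fun _ => rfl⟩
  have hcr : ∀ i, cr (fun i => c * x i) (fun i => μ * D (c * x i)) i = c ^ 2 * μ * w i := by
    intro i
    rw [hw]
    unfold cr
    simp only [Derivation.leibniz, smul_eq_mul]
    ring
  have hwr : ∀ i, ge v 0 (c ^ 2 * μ * w i) := by
    intro i
    rw [← hcr]
    unfold cr
    have h1 := (hxt (i + 1)).mul (hDx (i + 2))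
    have h2 := (hxt (i + 2)).mul (hDx (i + 1))
    rw [add_zero] at h1 h2
    exact h1.sub h2
  have hdp : dp (fun i => c * x i) (fun i => c ^ 2 * μ * w i) = 0 := by
    unfold dp
    rw [Fin.sum_univ_three]
    simp only [hw]
    unfold cr
    simp only [show (0 : Fin 3) + 1 = 1 from rfl, show (0 : Fin 3) + 2 = 2 from rfl,
      show (1 : Fin 3) + 1 = 2 from rfl, show (1 : Fin 3) + 2 = 0 from rfl,
      show (2 : Fin 3) + 1 = 0 from rfl, show (2 : Fin 3) + 2 = 1 from rfl]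
    ring
  have hval := psi_val m (fun i => c * x i) (fun i => c ^ ((m : ℤ) - 1) * gK i) (c ^ m * g)
    (c ^ j0 * aeval x J) (fun i l => c ^ ((m : ℤ) - 2) * HK i l) (fun i => c ^ 2 * μ * w i)
    hdp Q'
  have hE := reg_eval v ((Pool.Agent.H92.SF.Psi m (fun i => c * x i)
    (fun i => c ^ ((m : ℤ) - 1) * gK i) (c ^ m * g) (fun i l => c ^ ((m : ℤ) - 2) * HK i l)
    (c ^ j0 * aeval x J) (Polynomial.C Q')).coeff 0) (fun i => - (c ^ 2 * μ * w i))
    (fun a => hreg _ _ _ (hpsi 0 a) (hVE.2 0 a)) (fun i => (hwr i).neg)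
  rw [hval] at hE
  have hev : evc D x VK = eval ![w 1, w 2] (VK.coeff 0) := by
    conv_lhs => rw [hVKC]
    unfold evc Pool.Agent.H92.SF.ev2
    rw [Polynomial.coe_eval₂RingHom, Polynomial.eval₂_C, coe_eval₂Hom, hw, hw]
    rfl
  have hsc : eval ![(c ^ j0 * aeval x J) ^ 2 * (m * (c ^ m * g)) * (c ^ 2 * μ * w 1),
      (c ^ j0 * aeval x J) ^ 2 * (m * (c ^ m * g)) * (c ^ 2 * μ * w 2)] Q' =
      ((c ^ j0 * aeval x J) ^ 2 * (m * (c ^ m * g)) * (c ^ 2 * μ)) ^ n *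
        (c ^ (-(t : ℤ) - 2 * n) * evc D x VK) := by
    have h1 := hom_scale n Q' hQ'0 ((c ^ j0 * aeval x J) ^ 2 * (m * (c ^ m * g)) * (c ^ 2 * μ))
      (w 1) (w 2)
    rw [hev]
    have h2 : eval ![w 1, w 2] Q' = c ^ (-(t : ℤ) - 2 * n) * eval ![w 1, w 2] (VK.coeff 0) := by
      rw [hQ', map_mul, eval_C]
    rw [← h2, ← h1]
    simp only [mul_assoc]
  rw [hsc] at hE
  by_cases hz : evc D x VK = 0
  · rw [hz]; exact Pool.Agent.H27.LV.ge_zero v _
  right
  have n1 : (m : K) * (c ^ m * g) ≠ 0 := mul_ne_zero hmK hG0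
  have n2 : (c ^ j0 * aeval x J) ^ 2 * (m * (c ^ m * g)) * (c ^ 2 * μ) ≠ 0 :=
    mul_ne_zero (mul_ne_zero (pow_ne_zero _ hs0) n1) (mul_ne_zero (pow_ne_zero _ hc0) hμ0)
  have n3 : c ^ (-(t : ℤ) - 2 * n) * evc D x VK ≠ 0 := mul_ne_zero (zpow_ne_zero _ hc0) hz
  have hE' := hE.resolve_left (mul_ne_zero (pow_ne_zero _ n2) n3)
  have hmo : v.ord (m : K) = 0 := by
    have h1 := v.ord_base (m : k)
    rwa [map_natCast] at h1
  have hgo : v.ord (c ^ m * g) = 0 := by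
    rw [v.ord_mul' (pow_ne_zero _ hc0) hg0, v.ord_pow, hco]
    unfold nv at hnv
    linarith
  have hJo : v.ord (c ^ j0 * aeval x J) = nv v x j0 (aeval x J) := by
    rw [v.ord_mul' (pow_ne_zero _ hc0) hJ0, v.ord_pow, hco]
    unfold nv
    ring
  have hJp : 0 ≤ nv v x j0 (aeval x J) := by
    rw [← hJo]
    exact hsr.resolve_left hs0
  rw [v.ord_mul' (pow_ne_zero _ n2) n3, v.ord_pow, v.ord_mul' (mul_ne_zero (pow_ne_zero _ hs0) n1)
    (mul_ne_zero (pow_ne_zero _ hc0) hμ0), v.ord_mul' (pow_ne_zero _ hs0) n1, v.ord_pow, hJo,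
    v.ord_mul' hmK hG0, hmo, hgo, v.ord_mul' (pow_ne_zero _ hc0) hμ0, v.ord_pow, hco, hμo,
    v.ord_mul' (zpow_ne_zero _ hc0) hz, v.ord_zpow, hco] at hE'
  push_cast at hE'
  nlinarith [hE', hJp]

end Pool.Agent.H58.S2
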