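import Pool.Agent.H84.S2.TgE
import Pool.Agent.H64.SF.FLZ
import Pool.Agent.H29.SF.FBZ

/-!
# MP_70ba79_ag, board s2l_modules: row E_FA4 (finitely many families of curves; the model is the
file of helper64 and helper20)
-/

set_option autoImplicit false

namespace Pool.Agent.H58.S2

open MvPolynomial SC
open Pool.Agent.H27.LV (ge deg poleOrder canDeg DegreeBound)
open Pool.Agent.H84.SM (cr dt dp)
open Pool.Agent.H84.SL (pd)
open Pool.Agent.H92.SF (Q2)
open Pool.Agent.H3.SF (Itg Bb BB Hm eu grd hes Sfc Crd Cnn Crf Prm nv Vl VQ evc FE E)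
open Pool.Agent.H84.SF
open Pool.Agent.H3.S2
open Pool.Agent.H84.S2
open Pool.Agent.H64.SF (map_aeval_poly map_lin)
open Pool.Agent.H29.SF

section Fam

variable (k σ : Type) [Field k] (e r : ℕ)

/-- the ring of coefficients -/
abbrev RW : Type := MvPolynomial ((σ × Fin (e + 1)) ⊕ Fin (r + 1)) k

/-- the generic polynomials -/
noncomputable def UW (i : σ) : Polynomial (RW k σ e r) :=
  ∑ j : Fin (e + 1), Polynomial.monomial (j : ℕ) (X (Sum.inl (i, j)))

/-- the generic cofactor -/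
noncomputable def WW : Polynomial (RW k σ e r) :=
  ∑ j : Fin (r + 1), Polynomial.monomial (j : ℕ) (X (Sum.inr j))

theorem UW_coeff (i : σ) (j : Fin (e + 1)) :
    (UW k σ e r i).coeff (j : ℕ) = X (Sum.inl (i, j)) := by
  unfold UW
  rw [Polynomial.finsetSum_coeff, Finset.sum_eq_single j]
  · rw [Polynomial.coeff_monomial, if_pos rfl]
  · intro b _ hb
    rw [Polynomial.coeff_monomial, if_neg]
    exact fun h => hb (Fin.ext h)
  · intro h
    exact absurd (Finset.mem_univ _) h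

theorem UW_coeff_ge (i : σ) (n : ℕ) (hn : e < n) : (UW k σ e r i).coeff n = 0 := by
  unfold UW
  rw [Polynomial.finsetSum_coeff]
  refine Finset.sum_eq_zero fun j _ => ?_
  rw [Polynomial.coeff_monomial, if_neg]
  have := j.2
  omega

theorem UW_natDegree (i : σ) : (UW k σ e r i).natDegree ≤ e :=
  Polynomial.natDegree_le_iff_coeff_eq_zero.2 fun n hn => UW_coeff_ge k σ e r i n hn

theorem WW_coeff (j : Fin (r + 1)) : (WW k σ e r).coeff (j : ℕ) = X (Sum.inr j) := by
  unfold WW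
  rw [Polynomial.finsetSum_coeff, Finset.sum_eq_single j]
  · rw [Polynomial.coeff_monomial, if_pos rfl]
  · intro b _ hb
    rw [Polynomial.coeff_monomial, if_neg]
    exact fun h => hb (Fin.ext h)
  · intro h
    exact absurd (Finset.mem_univ _) h

theorem WW_coeff_ge (n : ℕ) (hn : r < n) : (WW k σ e r).coeff n = 0 := by
  unfold WW
  rw [Polynomial.finsetSum_coeff]
  refine Finset.sum_eq_zero fun j _ => ?_
  rw [Polynomial.coeff_monomial, if_neg]
  have := j.2
  omega

variable {k σ}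

/-- the ideal of the family -/
noncomputable def IW {F : Type} [Field F] [Algebra k F] (Y : σ → F) (N : ℕ)
    (G S : MvPolynomial σ k) : Ideal (RW k σ e r) :=
  Ideal.span ({z | ∃ j : ℕ, z = (aeval (UW k σ e r) G * WW k σ e r -
      Polynomial.X ^ N * aeval (UW k σ e r) S).coeff j} ∪
    {z | ∃ (f : MvPolynomial σ k) (j : ℕ), aeval Y f = 0 ∧ z = (aeval (UW k σ e r) f).coeff j})

end Fam

theorem fa4_prime (hGL4 : T_GL4) (k F σ : Type) [Field k] [IsAlgClosed k] [CharZero k] [Field F]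
    [Algebra k F] [Fintype σ] (Y : σ → F) (u : Fin 3 → F) (θ : F)
    (dd : Fin 3 → Derivation k F F) (J : MvPolynomial (Fin 3) k) (δ j0 c0 : ℕ)
    (c : Fin 3 → σ → k) (hS : SrD Y u θ dd J δ j0 c0 c) (m : ℕ) (GP : MvPolynomial σ k) (sg : ℕ)
    (SP : MvPolynomial σ k) (hm : j0 + sg + 4 ≤ m) (hG : GP.IsHomogeneous m)
    (hSP : SP.IsHomogeneous sg) (hC : Gns Y J c GP) (e r N : ℕ) (he : 1 ≤ e)
    (q : Ideal (RW k σ e r)) (hq : q.IsPrime) (hI : IW e r Y N GP SP ≤ q) :
    ∃ (N' : ℕ) (Ψ : MvPolynomial (Fin 3) k), Ψ ≠ 0 ∧ Ψ.IsHomogeneous N' ∧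
      ((∃ j, (aeval (UW k σ e r) SP).coeff j ∉ q) → (∃ i, (UW k σ e r i).coeff e ∉ q) →
        (∃ i, (UW k σ e r i).coeff 0 ∉ q) →
          ∀ j, (aeval (lin c (UW k σ e r)) Ψ).coeff j ∈ q) := by
  by_cases hc : (∃ j, (aeval (UW k σ e r) SP).coeff j ∉ q) ∧ (∃ i, (UW k σ e r i).coeff e ∉ q) ∧
        (∃ i, (UW k σ e r i).coeff 0 ∉ q)
  · obtain ⟨⟨j1, h1⟩, ⟨i1, h2⟩, ⟨i2, h3⟩⟩ := hc
    let L : Type := FractionRing (RW k σ e r ⧸ q)
    let ρ : RW k σ e r →ₐ[k] L :=
      (IsScalarTower.toAlgHom k (RW k σ e r ⧸ q) L).comp (Ideal.Quotient.mkₐ k q)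
    have hker : ∀ z, ρ z = 0 ↔ z ∈ q := by
      intro z
      have e1 : ρ z = algebraMap (RW k σ e r ⧸ q) L (Ideal.Quotient.mk q z) := rfl
      rw [e1, ← map_zero (algebraMap (RW k σ e r ⧸ q) L),
        (IsFractionRing.injective (RW k σ e r ⧸ q) L).eq_iff, Ideal.Quotient.eq_zero_iff_mem]
    have hcoef : ∀ (A : Polynomial (RW k σ e r)) (n : ℕ),
        (A.map (ρ : RW k σ e r →+* L)).coeff n = ρ (A.coeff n) := fun A n => by
      rw [Polynomial.coeff_map]; rfl
    have hP : aeval (fun i => (UW k σ e r i).map (ρ : RW k σ e r →+* L)) GP ∣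
        Polynomial.X ^ N * aeval (fun i => (UW k σ e r i).map (ρ : RW k σ e r →+* L)) SP := by
      refine ⟨(WW k σ e r).map (ρ : RW k σ e r →+* L), ?_⟩
      rw [← map_aeval_poly ρ (UW k σ e r) GP, ← map_aeval_poly ρ (UW k σ e r) SP]
      have h4 : (aeval (UW k σ e r) GP * WW k σ e r -
          Polynomial.X ^ N * aeval (UW k σ e r) SP).map (ρ : RW k σ e r →+* L) = 0 := by
        ext n
        rw [hcoef, Polynomial.coeff_zero, hker]
        exact hI (Ideal.subset_span (Or.inl ⟨n, rfl⟩))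
      rw [Polynomial.map_sub, Polynomial.map_mul, Polynomial.map_mul, Polynomial.map_pow,
        Polynomial.map_X, sub_eq_zero] at h4
      exact h4.symm
    have hK : ∀ f : MvPolynomial σ k, aeval Y f = 0 →
        aeval (fun i => (UW k σ e r i).map (ρ : RW k σ e r →+* L)) f = 0 := by
      intro f hf
      rw [← map_aeval_poly ρ (UW k σ e r) f]
      ext n
      rw [hcoef, Polynomial.coeff_zero, hker]
      exact hI (Ideal.subset_span (Or.inr ⟨f, n, hf, rfl⟩))
    have hS0 : aeval (fun i => (UW k σ e r i).map (ρ : RW k σ e r →+* L)) SP ≠ 0 := by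
      intro h0
      apply h1
      rw [← hker, ← hcoef, map_aeval_poly ρ (UW k σ e r) SP, h0, Polynomial.coeff_zero]
    obtain ⟨N', Ψ, hΨ, hΨN, hΨ0⟩ := hGL4 k F σ Y u θ dd J δ j0 c0 c hS m GP sg SP hm hG hSP hC L
      (fun i => (UW k σ e r i).map (ρ : RW k σ e r →+* L)) N e he
      (fun i => (Polynomial.natDegree_map_le).trans (UW_natDegree k σ e r i))
      ⟨i1, by
        change ((UW k σ e r i1).map (ρ : RW k σ e r →+* L)).coeff e ≠ 0
        rw [hcoef]; exact fun h => h2 ((hker _).1 h)⟩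
      ⟨i2, by
        change ((UW k σ e r i2).map (ρ : RW k σ e r →+* L)).coeff 0 ≠ 0
        rw [hcoef]; exact fun h => h3 ((hker _).1 h)⟩ hK hS0 hP
    refine ⟨N', Ψ, hΨ, hΨN, fun _ _ _ j => ?_⟩
    have h4 : aeval (fun i => (lin c (UW k σ e r) i).map (ρ : RW k σ e r →+* L)) Ψ = 0 := by
      rw [← hΨ0]
      exact congrArg (fun z : Fin 3 → Polynomial L => aeval z Ψ)
        (funext fun l => map_lin ρ c (UW k σ e r) l)
    rw [← map_aeval_poly ρ (lin c (UW k σ e r)) Ψ] at h4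
    rw [← hker, ← hcoef, h4, Polynomial.coeff_zero]
  · refine ⟨0, 1, one_ne_zero, MvPolynomial.isHomogeneous_one _ _, fun h1 h2 h3 => ?_⟩
    exact absurd ⟨h1, h2, h3⟩ hc

theorem pf_FA4 (hGL4 : T_GL4) : T_FA4 := by
  classical
  intro k F σ _ _ _ _ _ _ Y u θ dd J δ j0 c0 c hS m GP sg SP hm hG hSP hC e N he
  let r : ℕ := N + sg * e
  have hfin : (IW e r Y N GP SP).minimalPrimes.Finite :=
    Ideal.finite_minimalPrimes_of_isNoetherianRing _ _
  have hpr : ∀ q : Ideal (RW k σ e r), ∃ (N' : ℕ) (Ψ : MvPolynomial (Fin 3) k), Ψ ≠ 0 ∧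
      Ψ.IsHomogeneous N' ∧ (q ∈ (IW e r Y N GP SP).minimalPrimes →
      ((∃ j, (aeval (UW k σ e r) SP).coeff j ∉ q) → (∃ i, (UW k σ e r i).coeff e ∉ q) →
        (∃ i, (UW k σ e r i).coeff 0 ∉ q) →
          ∀ j, (aeval (lin c (UW k σ e r)) Ψ).coeff j ∈ q)) := by
    intro q
    by_cases hq : q ∈ (IW e r Y N GP SP).minimalPrimes
    · obtain ⟨N', Ψ, h1, h2, h3⟩ := fa4_prime hGL4 k F σ Y u θ dd J δ j0 c0 c hS m GP sg SP hm hG
        hSP hC e r N he q hq.1.1 hq.1.2
      exact ⟨N', Ψ, h1, h2, fun _ => h3⟩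
    · exact ⟨0, 1, one_ne_zero, MvPolynomial.isHomogeneous_one _ _, fun h => absurd h hq⟩
  choose N' Ψ hΨ hΨN hΨq using hpr
  refine ⟨∑ q ∈ hfin.toFinset, N' q, ∏ q ∈ hfin.toFinset, Ψ q,
    Finset.prod_ne_zero_iff.2 fun q _ => hΨ q,
    MvPolynomial.IsHomogeneous.prod _ _ _ fun q _ => hΨN q, ?_⟩
  intro p hdeg hpe hp0 hK hpS hp
  obtain ⟨w, hw⟩ := hp
  -- the degree of the cofactor
  have hGp : aeval p GP ≠ 0 := by
    intro h0
    rw [h0, zero_mul] at hw
    exact mul_ne_zero (pow_ne_zero _ Polynomial.X_ne_zero) hpS hw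
  have hwdeg : w.natDegree ≤ r := by
    by_cases hw0 : w = 0
    · rw [hw0, Polynomial.natDegree_zero]
      exact Nat.zero_le _
    · have h1 := congrArg Polynomial.natDegree hw
      rw [Polynomial.natDegree_mul (pow_ne_zero _ Polynomial.X_ne_zero) hpS,
        Polynomial.natDegree_mul hGp hw0, Polynomial.natDegree_X_pow] at h1
      have h2 := natDegree_aeval_le SP sg e hSP p hdeg
      show w.natDegree ≤ N + sg * e
      omega
  -- the point
  let ev : RW k σ e r →ₐ[k] k := aeval (Sum.elim (fun x : σ × Fin (e + 1) =>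
    (p x.1).coeff (x.2 : ℕ)) (fun j : Fin (r + 1) => w.coeff (j : ℕ)))
  have hcoef : ∀ (A : Polynomial (RW k σ e r)) (n : ℕ),
      (A.map (ev : RW k σ e r →+* k)).coeff n = ev (A.coeff n) := fun A n => by
    rw [Polynomial.coeff_map]; rfl
  have hU : ∀ i, (UW k σ e r i).map (ev : RW k σ e r →+* k) = p i := by
    intro i
    ext n
    rw [hcoef]
    rcases lt_or_ge e n with hn | hn
    · rw [UW_coeff_ge k σ e r i n hn, map_zero, Polynomial.coeff_eq_zero_of_natDegree_lt]
      exact (hdeg i).trans_lt hn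
    · have := UW_coeff k σ e r i ⟨n, Nat.lt_succ_of_le hn⟩
      change (UW k σ e r i).coeff n = _ at this
      rw [this]
      change aeval _ (X _) = _
      rw [aeval_X]
      rfl
  have hWW : (WW k σ e r).map (ev : RW k σ e r →+* k) = w := by
    ext n
    rw [hcoef]
    rcases lt_or_ge r n with hn | hn
    · rw [WW_coeff_ge k σ e r n hn, map_zero, Polynomial.coeff_eq_zero_of_natDegree_lt]
      exact hwdeg.trans_lt hn
    · have := WW_coeff k σ e r ⟨n, Nat.lt_succ_of_le hn⟩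
      change (WW k σ e r).coeff n = _ at this
      rw [this]
      change aeval _ (X _) = _
      rw [aeval_X]
      rfl
  have hev : ∀ Φ : MvPolynomial σ k, (aeval (UW k σ e r) Φ).map (ev : RW k σ e r →+* k) =
      aeval p Φ := by
    intro Φ
    rw [map_aeval_poly ev (UW k σ e r) Φ]
    exact congrArg (fun z : σ → Polynomial k => aeval z Φ) (funext hU)
  have hevl : ∀ Φ : MvPolynomial (Fin 3) k,
      (aeval (lin c (UW k σ e r)) Φ).map (ev : RW k σ e r →+* k) = aeval (lin c p) Φ := by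
    intro Φ
    rw [map_aeval_poly ev (lin c (UW k σ e r)) Φ]
    refine congrArg (fun z : Fin 3 → Polynomial k => aeval z Φ) (funext fun l => ?_)
    rw [map_lin ev c (UW k σ e r) l]
    exact congrArg (fun z : σ → Polynomial k => lin c z l) (funext hU)
  have hprime : (RingHom.ker (ev : RW k σ e r →+* k)).IsPrime := RingHom.ker_isPrime _
  have hIle : IW e r Y N GP SP ≤ RingHom.ker (ev : RW k σ e r →+* k) := by
    unfold IW
    rw [Ideal.span_le]
    rintro z (⟨j, rfl⟩ | ⟨f, j, hf, rfl⟩)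
    · change ev ((aeval (UW k σ e r) GP * WW k σ e r -
        Polynomial.X ^ N * aeval (UW k σ e r) SP).coeff j) = 0
      rw [← hcoef, Polynomial.map_sub, Polynomial.map_mul, Polynomial.map_mul, Polynomial.map_pow,
        Polynomial.map_X, hev, hev, hWW, hw, sub_self, Polynomial.coeff_zero]
    · change ev ((aeval (UW k σ e r) f).coeff j) = 0
      rw [← hcoef, hev, hK f hf, Polynomial.coeff_zero]
  obtain ⟨q, hq, hqle⟩ := Ideal.exists_minimalPrimes_le hIle
  have key := hΨq q hq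
    (by
      by_contra hno
      push Not at hno
      apply hpS
      rw [← hev]
      ext n
      rw [hcoef, Polynomial.coeff_zero]
      exact hqle (hno n))
    (by
      obtain ⟨i, hi⟩ := hpe
      refine ⟨i, fun h => hi ?_⟩
      have h1 : ev ((UW k σ e r i).coeff e) = 0 := hqle h
      rwa [← hcoef, hU] at h1)
    (by
      obtain ⟨i, hi⟩ := hp0
      refine ⟨i, fun h => hi ?_⟩
      have h1 : ev ((UW k σ e r i).coeff 0) = 0 := hqle h
      rwa [← hcoef, hU] at h1)
  have hzero : aeval (lin c p) (Ψ q) = 0 := by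
    rw [← hevl]
    ext n
    rw [hcoef, Polynomial.coeff_zero]
    exact hqle (key n)
  rw [map_prod]
  exact Finset.prod_eq_zero (hfin.mem_toFinset.2 hq) hzero

end Pool.Agent.H58.S2
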