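import Pool.Agent.H84.S2.TgE
import Pool.Agent.H20.S2.GNB

/-!
# MP_70ba79_ag, board s2l_modules: row E_GNS (divisibility for all nodal curves, with a factor;
adapted from the file of helper20)
-/

set_option autoImplicit false

namespace Pool.Agent.H58.S2

open MvPolynomial SC
open Pool.Agent.H27.LV (ge deg poleOrder canDeg DegreeBound)
open Pool.Agent.H84.SM (cr dt dp)
open Pool.Agent.H84.SL (pd)
open Pool.Agent.H92.SF (Q2)
open Pool.Agent.H3.SF (Itg Bb BB Hm eu grd hes Sfc Crd Cnn Crf Prm nv Vl VQ evc FE E)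
open Pool.Agent.H84.SF
open Pool.Agent.H3.S2
open Pool.Agent.H84.S2
open Pool.Agent.H20.S2 (gnb_syd gnb_form)

theorem pf_GNS (hFND : T_FND) (hGNQ : T_GNQR) (hGNN : T_GNNR) : T_GNS := by
  classical
  intro k F σ _ _ _ _ _ _ _ X u θ dd J δ j0 c0 c hCn hS m GP hm hN
  have hY := gnb_syd hS
  obtain ⟨T0, hT0⟩ := hFND k F σ X u dd J j0 hY m GP hN.hom
  intro L M _ _ _ _ _ _ Δ P R a hR hP0 hK hP
  obtain ⟨i0, hi0⟩ := hP0
  by_cases h : ∃ t : σ → k, t ≠ 0 ∧ Cone X t ∧ eval t GP = 0 ∧ Nod X GP t ∧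
      ∃ μ : L, μ ≠ 0 ∧ ∀ i, (P i).coeff 0 = μ * algebraMap k L (t i)
  · obtain ⟨t, ht0, htC, htG, -, μ, hμ, hμt⟩ := h
    exact Dvd.dvd.mul_left (hGNN k F σ X u dd J j0 c hY hS.lin m GP hm hN t ht0 htC htG L M Δ P R a
      hR hK hP μ hμ hμt) _
  · -- the linear forms
    have hl : ∀ t : σ → k, ∃ l : MvPolynomial σ k, l.IsHomogeneous 1 ∧
        (∀ μ : k, eval (μ • t) l = 0) ∧ ((∃ μ : k, μ ≠ 0 ∧ μ • t ≠ 0 ∧ Cone X (μ • t) ∧
          eval (μ • t) GP = 0 ∧ Nod X GP (μ • t)) → (aeval P l).coeff 0 ≠ 0) := by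
      intro t
      by_cases hNL : ∃ μ : k, μ ≠ 0 ∧ μ • t ≠ 0 ∧ Cone X (μ • t) ∧
          eval (μ • t) GP = 0 ∧ Nod X GP (μ • t)
      · obtain ⟨μ, hμ, hs0, hsC, hsG, hsN⟩ := hNL
        have hex : ∃ i j : σ, algebraMap k L (t i) * (P j).coeff 0 -
            algebraMap k L (t j) * (P i).coeff 0 ≠ 0 := by
          by_contra hno
          push Not at hno
          have ht0 : t ≠ 0 := by
            rintro rfl
            exact hs0 (smul_zero μ)
          obtain ⟨j0, hj0⟩ := Function.ne_iff.mp ht0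
          have hj0' : algebraMap k L (t j0) ≠ 0 := (_root_.map_ne_zero _).mpr hj0
          have hμ' : algebraMap k L μ ≠ 0 := (_root_.map_ne_zero _).mpr hμ
          have hall : ∀ i, (P i).coeff 0 =
              (P j0).coeff 0 / algebraMap k L (t j0) * algebraMap k L (t i) := by
            intro i
            have h1 := hno j0 i
            field_simp
            linear_combination h1
          have hPj0 : (P j0).coeff 0 ≠ 0 := by
            intro h0
            apply hi0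
            rw [hall i0, h0, zero_div, zero_mul]
          refine h ⟨μ • t, hs0, hsC, hsG, hsN,
            (P j0).coeff 0 / (algebraMap k L (t j0) * algebraMap k L μ),
            div_ne_zero hPj0 (mul_ne_zero hj0' hμ'), fun i => ?_⟩
          rw [hall i, Pi.smul_apply, smul_eq_mul, map_mul]
          field_simp
        obtain ⟨i, j, hij⟩ := hex
        obtain ⟨l, h1, h2, h3⟩ := gnb_form P t i j
        exact ⟨l, h1, h2, fun _ => by rw [h3]; exact hij⟩
      · exact ⟨0, isHomogeneous_zero _ _ _, fun μ => map_zero _, fun h' => absurd h' hNL⟩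
    choose l hl1 hl2 hl3 using hl
    let T1 : Finset (σ → k) := T0.filter (fun t => ∃ μ : k, μ ≠ 0 ∧ μ • t ≠ 0 ∧ Cone X (μ • t) ∧
      eval (μ • t) GP = 0 ∧ Nod X GP (μ • t))
    refine hGNQ k F σ X u θ dd J δ j0 c0 c hCn hS m GP hm hN (∑ _t ∈ T1, 1) (∏ t ∈ T1, l t)
      (IsHomogeneous.prod _ _ _ fun t _ => hl1 t) ?_ L M Δ P R a hR ⟨i0, hi0⟩ hK hP ?_
    · intro s hs0 hspt hsG
      rcases hN.ndl s hs0 hspt hsG with h1 | h1
      · exact Or.inl h1
      · refine Or.inr ⟨h1, ?_⟩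
        have hsC : Cone X s := ⟨fun f d hf => hCn.hmg f hf d, hspt⟩
        obtain ⟨t, ht, μ, hμ, rfl⟩ := hT0 s hs0 hsC hsG h1
        rw [map_prod]
        exact Finset.prod_eq_zero (Finset.mem_filter.mpr ⟨ht, μ, hμ, hs0, hsC, hsG, h1⟩) (hl2 t μ)
    · rw [map_prod, Polynomial.coeff_zero_eq_eval_zero, Polynomial.eval_prod, Finset.prod_ne_zero_iff]
      intro t ht
      rw [← Polynomial.coeff_zero_eq_eval_zero]
      exact hl3 t (Finset.mem_filter.mp ht).2

end Pool.Agent.H58.S2
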