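import Pool.Agent.H84.S2.TgB

/-!
# Logarithmic vector fields at a node (row B_LGN of the board `s2l_modules`)
-/

set_option autoImplicit false

namespace Pool.Agent.H58.S2

open MvPolynomial SC
open Pool.Agent.H27.LV (ge deg poleOrder canDeg)
open Pool.Agent.H84.SM (cr dt dp)
open Pool.Agent.H84.SL (pd)
open Pool.Agent.H92.SF (Q2)
open Pool.Agent.H3.SF (Itg Bb BB Hm eu grd hes Sfc Crd Cnn Crf Prm nv Vl VQ evc FE E)
open Pool.Agent.H84.SF
open Pool.Agent.H3.S2
open Pool.Agent.H84.S2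

namespace LGN

/-- members of `J * (X, Y)` -/
lemma mem_pair {O : Type} [CommRing O] (I : Ideal O) (X Y z : O)
    (h : z ∈ I * Ideal.span {X, Y}) : ∃ c ∈ I, ∃ d ∈ I, z = c * X + d * Y := by
  have h1 : Ideal.span {X, Y} = Ideal.span {X} ⊔ Ideal.span {Y} := by
    rw [← Ideal.span_union]; rfl
  rw [h1, Ideal.mul_sup, Submodule.mem_sup] at h
  obtain ⟨y, hy, w, hw, rfl⟩ := h
  obtain ⟨c, hc, rfl⟩ := Ideal.mem_mul_span_singleton.1 hy
  obtain ⟨d, hd, rfl⟩ := Ideal.mem_mul_span_singleton.1 hw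
  exact ⟨c, hc, d, hd, rfl⟩

/-- derivations on powers of ideals -/
lemma der_pow {k O : Type} [CommRing k] [CommRing O] [Algebra k O] (I : Ideal O)
    (d : Derivation k O O) (n : ℕ) (z : O) (h : z ∈ I ^ (n + 1)) : d z ∈ I ^ n := by
  induction n generalizing z with
  | zero => rw [pow_zero, Ideal.one_eq_top]; exact Submodule.mem_top
  | succ n ih =>
    rw [pow_succ] at h
    refine Submodule.mul_induction_on h ?_ ?_
    · intro a ha b hb
      rw [Derivation.leibniz, smul_eq_mul, smul_eq_mul]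
      refine Ideal.add_mem _ (Ideal.mul_mem_right _ _ ha) ?_
      have h1 := ih a ha
      rw [pow_succ']
      exact Ideal.mul_mem_mul hb h1
    · intro a b ha hb
      rw [map_add]
      exact Ideal.add_mem _ ha hb

/-- the computation at a place -/
lemma core {k K : Type} [Field k] [Field K] [Algebra k K] (v : DV k K)
    (X Y P Q A B DX DY a u1 u2 w1 w2 : K) (e : ℤ) (hX : X ≠ 0) (hY : ge v (v.ord X) Y)
    (hu1 : ge v 1 u1) (hu2 : ge v 1 u2) (hw1 : ge v 0 w1) (hw2 : ge v 0 w2)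
    (hQ : Q = X + (u1 * X + u2 * Y)) (hA : A = w1 * X + w2 * Y)
    (hD : P * DX + Q * DY = a * (A * P + B * Q)) (ha : ge v e a)
    (hDX : ge v (v.ord X + e) DX) :
    ∃ b : K, ge v e b ∧ DX = a * A + b * Q ∧ DY = a * B - b * P := by
  have hXg : ge v (v.ord X) X := Pool.Agent.H27.LV.ge_of_ord v
  have h2 : ge v (1 + v.ord X) (u1 * X + u2 * Y) := (hu1.mul hXg).add (hu2.mul hY)
  obtain ⟨hQ0, hQo⟩ := v.ord_add_eq_left (y := u1 * X + u2 * Y) hX (by
    intro h0
    have := h2.resolve_left h0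
    omega)
  rw [← hQ] at hQ0 hQo
  have hAg : ge v (v.ord X) A := by
    rw [hA]
    have h3 := (hw1.mul hXg).add (hw2.mul hY)
    rwa [zero_add] at h3
  have hn : ge v (v.ord X + e) (DX - a * A) := by
    refine hDX.sub ?_
    have h3 := ha.mul hAg
    rwa [add_comm] at h3
  refine ⟨(DX - a * A) / Q, ?_, ?_, ?_⟩
  · by_cases h0 : DX - a * A = 0
    · left; rw [h0, zero_div]
    · right
      have h4 := hn.resolve_left h0
      rw [v.ord_div h0 hQ0, hQo]
      omega
  · rw [div_mul_cancel₀ _ hQ0]; ring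
  · have h5 : Q * DY = Q * (a * B - (DX - a * A) / Q * P) := by
      have h6 : Q * (a * B - (DX - a * A) / Q * P) = Q * (a * B) - (DX - a * A) * P := by
        field_simp
      rw [h6]
      linear_combination hD
    exact mul_left_cancel₀ hQ0 h5

end LGN

theorem pf_LGN : T_LGN := by
  intro k O _ _ _ _ _ ε X Y dX dY hF G hG
  have hI : ∀ h ∈ Ideal.span {X, Y}, ε h = 0 := by
    intro h hh
    obtain ⟨a, b, hab⟩ := Ideal.mem_span_pair.1 hh
    exact (hF.max h).2 ⟨a, b, hab.symm⟩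
  -- derivatives of G
  have h1 : dX G - Y ∈ Ideal.span {X, Y} * Ideal.span {X, Y} := by
    have h2 := LGN.der_pow _ dX 2 _ hG
    rw [map_sub, Derivation.leibniz, hF.xx, hF.xg, smul_eq_mul, smul_eq_mul, mul_zero, zero_add,
      mul_one, pow_two] at h2
    exact h2
  have h1' : dY G - X ∈ Ideal.span {X, Y} * Ideal.span {X, Y} := by
    have h2 := LGN.der_pow _ dY 2 _ hG
    rw [map_sub, Derivation.leibniz, hF.gx, hF.gg, smul_eq_mul, smul_eq_mul, mul_zero, add_zero,
      mul_one, pow_two] at h2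
    exact h2
  obtain ⟨a1, ha1, b1, hb1, e1⟩ := LGN.mem_pair _ _ _ _ h1
  obtain ⟨a2, ha2, b2, hb2, e2⟩ := LGN.mem_pair _ _ _ _ h1'
  have hG2 : G ∈ Ideal.span {X, Y} * Ideal.span {X, Y} := by
    have hXY : X * Y ∈ Ideal.span {X, Y} * Ideal.span {X, Y} :=
      Ideal.mul_mem_mul (Ideal.subset_span (by simp)) (Ideal.subset_span (by simp))
    have h3 : Ideal.span {X, Y} ^ 3 ≤ Ideal.span {X, Y} * Ideal.span {X, Y} := by
      rw [← pow_two]; exact Ideal.pow_le_pow_right (by norm_num)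
    have h4 := Ideal.add_mem _ (h3 hG) hXY
    rwa [sub_add_cancel] at h4
  obtain ⟨c, hc, d, hd, e3⟩ := LGN.mem_pair _ _ _ _ hG2
  -- the inverse of the matrix
  have hdet : IsUnit ((1 + b1) * (1 + a2) - a1 * b2) := by
    refine hF.unit _ ?_
    rw [map_sub, map_mul, map_mul, map_add, map_add, map_one, hI _ hb1, hI _ ha2, hI _ ha1]
    simp
  obtain ⟨w, hw⟩ := hdet.exists_left_inv
  have eX : X = -(w * b2) * dX G + w * (1 + b1) * dY G := by
    linear_combination (-(1 : O) * X) * hw + (w * b2) * e1 - (w * (1 + b1)) * e2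
  have eY : Y = w * (1 + a2) * dX G - w * a1 * dY G := by
    linear_combination (-(1 : O) * Y) * hw - (w * (1 + a2)) * e1 + (w * a1) * e2
  refine ⟨c * (-(w * b2)) + d * (w * (1 + a2)), c * (w * (1 + b1)) - d * (w * a1), ?_, ?_, ?_, ?_⟩
  · exact hI _ (Ideal.add_mem _ (Ideal.mul_mem_right _ _ hc) (Ideal.mul_mem_right _ _ hd))
  · exact hI _ (Ideal.sub_mem _ (Ideal.mul_mem_right _ _ hc) (Ideal.mul_mem_right _ _ hd))
  · linear_combination (-c) * eX - d * eY - e3
  intro K _ _ x v hv0 hv1 hxG D e hDe hch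
  have hαI : c * (-(w * b2)) + d * (w * (1 + a2)) ∈ Ideal.span {X, Y} :=
    Ideal.add_mem _ (Ideal.mul_mem_right _ _ hc) (Ideal.mul_mem_right _ _ hd)
  have hβI : c * (w * (1 + b1)) - d * (w * a1) ∈ Ideal.span {X, Y} :=
    Ideal.sub_mem _ (Ideal.mul_mem_right _ _ hc) (Ideal.mul_mem_right _ _ hd)
  have hαβ : (c * (-(w * b2)) + d * (w * (1 + a2))) * dX G +
      (c * (w * (1 + b1)) - d * (w * a1)) * dY G = G := by
    linear_combination (-c) * eX - d * eY - e3
  generalize hα : c * (-(w * b2)) + d * (w * (1 + a2)) = α at hαI hαβ ⊢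
  generalize hβ : c * (w * (1 + b1)) - d * (w * a1) = β at hβI hαβ ⊢
  obtain ⟨p1, q1, epq1⟩ := Ideal.mem_span_pair.1 hαI
  obtain ⟨p2, q2, epq2⟩ := Ideal.mem_span_pair.1 hβI
  -- a
  have ha : ge v e (D (x G) / x G) := by
    by_cases h0 : D (x G) = 0
    · left; rw [h0, zero_div]
    · right
      have h4 := (hDe _ hxG).resolve_left h0
      rw [v.ord_div h0 hxG]
      omega
  have hmain : x (dX G) * D (x X) + x (dY G) * D (x Y) =
      D (x G) / x G * (x α * x (dX G) + x β * x (dY G)) := by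
    rw [← hch, ← map_mul, ← map_mul, ← map_add, hαβ, div_mul_cancel₀ _ hxG]
  have fin : ∀ b : K, D (x X) = D (x G) / x G * x α + b * x (dY G) →
      D (x Y) = D (x G) / x G * x β - b * x (dX G) → ∀ h, D (x h) =
      D (x G) / x G * x (α * dX h + β * dY h) + b * x (dY G * dX h - dX G * dY h) := by
    intro b hb1 hb2 h
    rw [hch h, hb1, hb2, map_add, map_sub, map_mul, map_mul, map_mul, map_mul]
    ring
  have key : (x X ≠ 0 ∧ ge v (v.ord (x X)) (x Y)) ∨ (x Y ≠ 0 ∧ ge v (v.ord (x Y)) (x X)) := by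
    by_cases hX : x X = 0
    · right
      refine ⟨fun hY => hxG ?_, ?_⟩
      · rw [e3, map_add, map_mul, map_mul, hX, hY]; ring
      · rw [hX]; exact Pool.Agent.H27.LV.ge_zero v _
    · by_cases hY : x Y = 0
      · left
        refine ⟨hX, ?_⟩
        rw [hY]; exact Pool.Agent.H27.LV.ge_zero v _
      · rcases le_total (v.ord (x X)) (v.ord (x Y)) with h | h
        · exact Or.inl ⟨hX, Or.inr h⟩
        · exact Or.inr ⟨hY, Or.inr h⟩
  rcases key with ⟨hX, hY⟩ | ⟨hY, hX⟩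
  · obtain ⟨b, hb, hb1', hb2'⟩ := LGN.core v (x X) (x Y) (x (dX G)) (x (dY G)) (x α) (x β)
      (D (x X)) (D (x Y)) (D (x G) / x G) (x a2) (x b2) (x p1) (x q1) e hX hY
      (hv1 _ (hI _ ha2)) (hv1 _ (hI _ hb2)) (hv0 _) (hv0 _) (by
        have h5 := congrArg x e2
        rw [map_sub, map_add, map_mul, map_mul] at h5
        rw [← h5]; ring) (by rw [← epq1, map_add, map_mul, map_mul]) hmain ha (hDe _ hX)
    exact ⟨D (x G) / x G, b, ha, hb, fin b hb1' hb2'⟩
  · obtain ⟨b, hb, hb1', hb2'⟩ := LGN.core v (x Y) (x X) (x (dY G)) (x (dX G)) (x β) (x α)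
      (D (x Y)) (D (x X)) (D (x G) / x G) (x b1) (x a1) (x q2) (x p2) e hY hX
      (hv1 _ (hI _ hb1)) (hv1 _ (hI _ ha1)) (hv0 _) (hv0 _) (by
        have h5 := congrArg x e1
        rw [map_sub, map_add, map_mul, map_mul] at h5
        linear_combination h5) (by rw [← epq2, map_add, map_mul, map_mul]; ring) (by
        linear_combination hmain) ha (hDe _ hY)
    refine ⟨D (x G) / x G, -b, ha, hb.neg, fin (-b) ?_ ?_⟩
    · rw [hb2']; ring
    · rw [hb1']; ring

end Pool.Agent.H58.S2
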